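import Pool.Agent.N65.GP.Main3
import Pool.Agent.N344.GP.B1
import Pool.Agent.N143.GP.B
import Pool.Agent.N342.GP.MO
import Pool.Agent.N933.GP.H
import Pool.Agent.N160.GP.HD
import Pool.Agent.N667.GP.Li
import Pool.Agent.N401.GPL.LC
import Pool.Agent.N415.GP.CIR
import Pool.Agent.N564.GP.JI
import Pool.Agent.N527.GP.IM
import Pool.Agent.N861.GP.PS
import Pool.Agent.N681.GP2.FI
import Pool.Agent.N645.GP2.PF
import Pool.Agent.N438.GP2.SG
import Pool.Agent.N543.GP2.IRR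
import Pool.Agent.N342.GP2.RAD
import Pool.Agent.N252.GP2.ST
import Pool.Agent.N403.GP2.NN
import Pool.Agent.N255.GP2.EM
import Pool.Agent.N767.GP2.EC
set_option autoImplicit false

/-!
# The regulator on `K_2` of open curves

Let `C` be an irreducible plane curve over a dense subfield `k` of `ℂ`, which meets the line at infinity in
`n = deg C` different points off the coordinate axes, let `γ_1, …, γ_d` be loops which are independent in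
the homology of the smooth compactification `X`, and let `D₀ ⊆ k` be finite. There are finite sets `M ⊆ k`
and `D ⊆ k`, `D₀ ⊆ D`, such that for `S = {x ∈ D or y ∈ M}` all regulators and all real residues on `S` with
sum `0` are attained by real combinations of the symbols `{y - m, x - c}`, `m ∈ M`, `c ∈ D`, with
coefficients of sum `0`.
-/

namespace Pool.Agent.Results.MP_b2b689_ag.DenseRegulatorCurves

open Pool.Agent.N65.GP

theorem result (k : Subfield ℂ) (hk : Dense (k : Set ℂ)) (C : Crv k) (hC : Irreducible C.poly)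
    (d : ℕ) (γ : Fin d → Loop) (hγ : ∀ l, (γ l).On C)
    (hind : ∀ s : Fin d → ℝ, s ≠ 0 → ∃ G : Polynomial (Polynomial ℂ), SecondKind C G ∧
      ∑ l, (s l : ℂ) * (γ l).int (fun x y => G.evalEval x y) ≠ 0)
    (D₀ : Finset ℂ)
    (hD₀ : ∀ c ∈ D₀, c ∈ k ∧ (∀ y, C.F c y = 0 → C.Fy c y ≠ 0) ∧ ∀ l t, (γ l).x t ≠ c) :
    ∃ M D : Finset ℂ, D₀ ⊆ D ∧
      (∀ m ∈ M, m ∈ k ∧ (∀ x, C.F x m = 0 → C.Fx x m ≠ 0) ∧ ∀ l t, (γ l).y t ≠ m) ∧
      (∀ c ∈ D, c ∈ k ∧ (∀ y, C.F c y = 0 → C.Fy c y ≠ 0) ∧ ∀ l t, (γ l).x t ≠ c) ∧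
      (∀ m ∈ M, ∀ c ∈ D, C.F c m ≠ 0) ∧
      {s : ℂ × ℂ | C.F s.1 s.2 = 0 ∧ (s.1 ∈ D ∨ s.2 ∈ M)}.Finite ∧
      ∀ (r : Fin d → ℝ) (res : ℂ × ℂ → ℝ),
        (∑ᶠ s ∈ {s : ℂ × ℂ | C.F s.1 s.2 = 0 ∧ (s.1 ∈ D ∨ s.2 ∈ M)}, res s) = 0 →
        ∃ μ : ℂ → ℂ → ℝ, (∑ m ∈ M, ∑ c ∈ D, μ m c) = 0 ∧
          (∀ c ∈ D, ∀ y, C.F c y = 0 → ∑ m ∈ M, μ m c * Real.log ‖y - m‖ = res (c, y)) ∧
          (∀ m ∈ M, ∀ x, C.F x m = 0 → - ∑ c ∈ D, μ m c * Real.log ‖x - c‖ = res (x, m)) ∧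
          ∀ l, ∑ m ∈ M, ∑ c ∈ D, μ m c * (γ l).reg m c = r l := by
  have hB1 : S_B1 := Pool.Agent.N344.GP.B1.t_B1
  have hB : S_B := Pool.Agent.N143.GP.t_B hB1
  have hMO : S_MO := Pool.Agent.N342.GP.t_MO
  have hH : S_H := Pool.Agent.N933.GP.t_H
  have hHD : S_HD := Pool.Agent.N160.GP.HD.t_HD
  have hLI : S_LI := Pool.Agent.N667.GP.t_LI
  have hLC : S_LC := Pool.Agent.N401.GPL.t_LC
  have hCIR : S_CIR := Pool.Agent.N415.GP.t_CIR
  have hJI : S_JI := Pool.Agent.N564.GP.t_JI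
  have hIM : S_IM := Pool.Agent.N527.GP.t_IM hHD
  have hPS : S_PS := Pool.Agent.N861.GP.PS.t_PS
  have hFI : S_FI := Pool.Agent.N681.GP2.t_FI
  have hPF : S_PF := Pool.Agent.N645.GP2.t_PF
  have hSG : S_SG := Pool.Agent.N438.GP2.t_SG
  have hIRR : S_IRR := Pool.Agent.N543.GP2.t_IRR
  have hRAD : S_RAD := Pool.Agent.N342.GP2.t_RAD hCIR
  have hST : S_ST := Pool.Agent.N252.GP2.t_ST hH hHD hSG hJI hIM
  have hNN : S_NN := Pool.Agent.N403.GP2.NN.t_NN hHD hPS hRAD hIRR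
  have hEM : S_EM := Pool.Agent.N255.GP2.t_EM hH hHD hLI hLC hCIR hFI hPF hST hNN
  have hEC : S_EC := Pool.Agent.N767.GP2.EC.t_EC hLI hFI hPF hEM
  exact main3 hB hMO hPF hEC k hk C hC d γ hγ hind D₀ hD₀

end Pool.Agent.Results.MP_b2b689_ag.DenseRegulatorCurves
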