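import Pool.Agent.N65.EK.Main
set_option autoImplicit false

/-!
# Regulators on powers of elliptic curves: torsion points span everything

Let `Λ = ℤ ω₁ + ℤ ω₂` be a lattice in `ℂ` and `k ≥ 1`. For all large `N` the Eisenstein-Kronecker vectors at
the nonzero `N`-torsion points of `ℂ / Λ`,
`v(t)_a = ∑ χ_t(ω) / (ω ^ (a + 1) * conj ω ^ (k - a + 1))`, `0 ≤ a ≤ k`,
span over `ℝ` the whole space of the vectors with `v_(k - a) = (-1) ^ k * conj v_a`.
-/

namespace Pool.Agent.Results.MP_b2b689_ag.EllipticCurvePowers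

open Pool.Agent.N65.EK ComplexConjugate

theorem result (L : PeriodPair) (k : ℕ) (hk : 1 ≤ k) : ∃ N₀ : ℕ, ∀ N ≥ N₀,
    (Submodule.span ℝ ((fun t => ek L k N t) '' (tor N : Set (ℤ × ℤ))) : Set (Fin (k + 1) → ℂ)) =
      {v | ∀ a, v a.rev = (-1) ^ k * conj (v a)} :=
  span_eq L k hk

end Pool.Agent.Results.MP_b2b689_ag.EllipticCurvePowers
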