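import Pool.Agent.N179.RG.Fin

/-!
# The regulator onto the Hodge classes for the products of an arbitrary smooth variety with members of an
# independent family

Let `𝒱` be the class of the smooth projective complex varieties which can be defined over a number field,
`W` their Betti cohomology `H(V, ℚ) ⊗ K` with coefficients in an algebraically closed field `K` (isomorphic
to `ℂ`), `Γ` the group of the `K`-valued points of the fundamental group of the category of the mixed
Hodge structures over `ℚ` with polarisable graded pieces (not reductive; it is connected), and `χ` its
action on the Tate twist `H^2(ℙ^1)`.

Let `U` be an **arbitrary** smooth complex variety, not necessarily proper, which can be defined over a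
number field (`OpenVar`): `M` is its cohomology with coefficients in `K`, a mixed Hodge structure, with the
action of `Γ`; `H(V × U) = H(V) ⊗ M` for `V ∈ 𝒱`. For all `m` and `r` let `hodge V m r` be the set `Hg^(m,r)(V × U)`
of the problem, the morphisms of mixed Hodge structures from `ℚ(0)` to `H^m(V × U)(r)`, and `mot V m r` the
image in it of the regulator, of the motivic cohomology group `H^m_ℳ(V × U, ℚ(r)) = CH^r(V × U, 2 r - m)_ℚ`.
The properties used (`HodgeFor`, `IsRegulator`): the Hodge classes are the rational structure of the
space of the classes which are multiplied by `χ(g)^r`; the image of the motivic cohomology is a
rational subspace, and it is stable under pull-backs by morphisms of `V`, products with classes of cycles on `V`, and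
push-forward along the projections `V × V' × U ⟶ V' × U`. `OntoHodge U V` says that the regulator is onto
the Hodge classes `Hg^(m,r)(V × U)` for all `m` and `r`: this is the first part of Q1 (density of the
image of the regulator is equivalent to the surjectivity onto `Hg^(m,r)` and the density of the
intersection with the part `J^(m,r)`), for `U` projective the Hodge conjecture for `V × U`.

A vector of a representation is *semi-invariant* if `Γ` (or a subgroup of finite index) multiplies it by
a character. Let `V_i`, `i ∈ ι`, be any family of Hodge structures such that the representations
`End V_i` are semisimple (always true for polarisable `V_i`), and which are pairwise independent: for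
`i ≠ j` every equivariant linear map `End V_i → End V_j` has its values in the span of the semi-invariant
vectors. For instance `V_i = H^1(A_i)` for pairwise not isogenous elliptic curves without complex
multiplication, or for pairwise not isogenous abelian varieties `A_i` with `End A_i = ℤ` and of odd
dimension, defined over number fields. Let `P_a` be varieties with cohomology generated by `V_(i_a)`, for
instance **arbitrary powers** of `A_i`, for which the Hodge conjecture is true (`RegFactor`).

**Theorem.** There are finite sets `E(M)` of indices, for all representations `M` of `Γ`, with
`|E(M)| + d' ≤ d`, where `d = dim M` and `d'` is the dimension of the span of the semi-invariant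
vectors (`2 |E(M)| + d' ≤ d` if `M` carries an invariant form up to a character), and with
`E(V_j) ⊆ {j}`, such that for **every** `U`, all projective varieties `Z` (for instance a point) with
cohomology generated by semi-invariant classes and the images of `M_1, ..., M_m`, and all products
`Y = P_1 × ... × P_n × Z` with pairwise different indices `i_a` outside `E(M_1)`, ..., `E(M_m)` and
`E(H(U))`:

**the regulator is onto the Hodge classes `Hg^(m,r)(Y × U)` for all `m` and `r` if and only if it is onto
the Hodge classes `Hg^(m,r)(Z × U)` for all `m` and `r`**; with `Z` a point: for
`P_1 × ... × P_n × U` if and only if for `U`.

Examples.

* `U` a smooth curve (projective or not) over a number field: the regulator is onto the Hodge classes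
  (`Hg^(1,1)(U)` consists of the classes of invertible functions, by Abel's theorem). So it is onto the
  Hodge classes `Hg^(m,r)` for `A_1^(n_1) × ... × A_m^(n_m) × U`, for all `n_i` and all `A_i` in a family of
  pairwise not isogenous elliptic curves without complex multiplication, with finitely many exceptions.
  Here `Hg^(m,r)` is not zero also for `m < 2 r`: for `m = 2 r - 1` it contains the products of classes of
  cycles with invertible functions; the theorem says that there is nothing else.
* `U` a torus, a complement of an arrangement of hyperplanes, or another variety with cohomology of
  Hodge–Tate type: there are no exceptions in the part of `E` from the semi-invariant vectors; the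
  equivalence holds for the same reason for arbitrary `U` with finitely many exceptions.

The group of `M` is not reductive (`M` is a mixed Hodge structure). The proof: the Lie algebra of the
derivations of the category of the representations of `Γ`, the lemmas of Goursat and Ribet and Lie's
theorem (the engine of `MP_021685_ag.IndependenceFromSquares`) show that the slices on `P` of a Hodge
class in `H(P) ⊗ (H(Y) ⊗ M)` are combinations of semi-invariant classes on `P`, so of classes of cycles; the
components with respect to a basis of the classes of cycles on `P` are combinations of Hodge classes on
`Y × U`, so they come from motivic cohomology by hypothesis. The rationality of the Hodge classes gives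
the rational statement, and one goes back by push-forward.
-/

set_option autoImplicit false

universe u

namespace Pool.Agent.Results.MP_b2b689_ag.IndependentFamilies

open Pool.Agent.H914 Pool.Agent.N179.GR.S Pool.Agent.N179.RG

/-- **The regulator onto the Hodge classes, an arbitrary smooth variety, and an independent
family.** -/
theorem result {k : Type u} [Field k] {𝒱 : VarClass k} {ops : CycleOps 𝒱}
    {W : WeilCohomology.{u, 0} ops} (hK : Nonempty (W.K ≃+* ℂ)) {Γ : Type} [Group Γ]
    (χ : Chr W.K Γ) {ι : Type} {V : ι → GRep W.K Γ} (hV : Family V) :
    ∃ E : GRep W.K Γ → Set ι, RegSets χ V E :=
  final hK χ hV

end Pool.Agent.Results.MP_b2b689_ag.IndependentFamilies
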