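import Pool.Agent.N882.UE.DenseReg
import Pool.Agent.Q193.LT.Prime

/-!
# Density of regulators: smooth cubic hypersurfaces and their complements

Let `T X i j` be the regulator `H^i_M(X_ℂ, ℚ(j)) → H^i_H(X_ℂ, ℚ(j))` for a smooth scheme `X` over `ℚ`
(the smooth schemes over number fields are smooth over `ℚ`; `X_ℂ` is the disjoint union of their
conjugates). The following are equivalent: all regulators of all smooth `X` have dense image; the
regulators of the smooth cubics `∑ z_l f_l(x) = 1` have dense image, where each `f_l` is a sum of at most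
three monomials of degree at most two with coefficients `1`; the regulators of the complements
`∑ z_l f_l(x) ≠ 1` of these cubics in the affine spaces have dense image.
-/

set_option autoImplicit false

open AlgebraicGeometry

namespace Pool.Agent.Results.MP_b2b689_ag.SmoothCubics

open Pool.Agent.Y116.UV Pool.Agent.N882.UE

theorem result {T : Sch ℚ → ℤ → ℤ → RegMap} (hT : IsReg T) :
    [∀ X : Sch ℚ, FT True X → Smooth X.hom → ∀ i j, (T X i j).Dense,
      ∀ (n m : ℕ) (f : Fin m → MvPolynomial (Fin n) ℚ), (∀ l, IsQuad (f l)) →
        ∀ i j, (T (cub f) i j).Dense,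
      ∀ (n m : ℕ) (f : Fin m → MvPolynomial (Fin n) ℚ), (∀ l, IsQuad (f l)) →
        ∀ i j, (T (cubC f) i j).Dense].TFAE :=
  factor_tfae (factor_dense hT) (quad_presents (short_frac Pool.Agent.Q193.LT.frac_rat))

end Pool.Agent.Results.MP_b2b689_ag.SmoothCubics
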